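import Pool.Agent.helper17.CH.SpecV

/-!
Row ch:ES (MP_5628fe_nt, project CH): sums of `n^(it)` over all `n ≤ u` from dyadic blocks.
-/

set_option autoImplicit false

namespace Pool.Agent.CH

open Finset Filter

/-- Growth comparison: `a + b log L + c L^s ≤ d L^r` for large `L`. -/
theorem ES_ev (a b c d r s : ℝ) (hd : 0 < d) (hr : 0 < r) (hs : s < r) :
    ∀ᶠ L : ℝ in atTop, a + b * Real.log L + c * L ^ s ≤ d * L ^ r := by
  have h1 : ∀ᶠ L : ℝ in atTop, a ≤ d / 3 * L ^ r :=
    (Tendsto.const_mul_atTop (by positivity) (tendsto_rpow_atTop hr)).eventually_ge_atTop a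
  have h2 : ∀ᶠ L : ℝ in atTop, |b| * Real.log L ≤ d / 3 * L ^ r := by
    have h := (isLittleO_log_rpow_atTop hr).def (show (0 : ℝ) < d / (3 * (|b| + 1)) by positivity)
    filter_upwards [h, eventually_ge_atTop (1 : ℝ)] with L hL h1L
    have hlog : 0 ≤ Real.log L := Real.log_nonneg h1L
    have hpow : 0 ≤ L ^ r := Real.rpow_nonneg (by linarith) r
    rw [Real.norm_of_nonneg hlog, Real.norm_of_nonneg hpow] at hL
    calc |b| * Real.log L ≤ (|b| + 1) * Real.log L := by nlinarith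
      _ ≤ (|b| + 1) * (d / (3 * (|b| + 1)) * L ^ r) := by
          apply mul_le_mul_of_nonneg_left hL; positivity
      _ = d / 3 * L ^ r := by
          have : |b| + 1 ≠ 0 := by positivity
          field_simp
  have h3 : ∀ᶠ L : ℝ in atTop, c * L ^ s ≤ d / 3 * L ^ r := by
    have hrs : 0 < r - s := by linarith
    have h := (Tendsto.const_mul_atTop (show (0 : ℝ) < d / 3 by positivity)
      (tendsto_rpow_atTop hrs)).eventually_ge_atTop c
    filter_upwards [h, eventually_ge_atTop (1 : ℝ)] with L hL h1L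
    have hL0 : 0 < L := by linarith
    have hpow : 0 ≤ L ^ s := Real.rpow_nonneg hL0.le s
    calc c * L ^ s ≤ (d / 3 * L ^ (r - s)) * L ^ s := mul_le_mul_of_nonneg_right hL hpow
      _ = d / 3 * (L ^ (r - s) * L ^ s) := by ring
      _ = d / 3 * L ^ r := by rw [← Real.rpow_add hL0]; congr 2; ring
  filter_upwards [h1, h2, h3, eventually_ge_atTop (1 : ℝ)] with L h1 h2 h3 h4
  have hlog : 0 ≤ Real.log L := Real.log_nonneg h4
  have : b * Real.log L ≤ |b| * Real.log L := mul_le_mul_of_nonneg_right (le_abs_self b) hlog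
  linarith

theorem ES_norm (t x : ℝ) : ‖nit t x‖ = 1 := by
  rw [nit, Complex.norm_exp_ofReal_mul_I]

/-- Dyadic decomposition. -/
theorem ES_dyadic (f : ℕ → ℂ) (hf : ∀ n, ‖f n‖ ≤ 1) (W U : ℕ) (ε : ℝ) (hε : 0 ≤ ε) (hW : 1 ≤ W)
    (hb : ∀ N N' : ℕ, W ≤ N → N ≤ N' → N' ≤ 2 * N → N' ≤ U → ‖∑ n ∈ Ioc N N', f n‖ ≤ ε * N) :
    ∀ V : ℕ, V ≤ U → ‖∑ n ∈ Ioc 0 V, f n‖ ≤ 2 * W + 3 * ε * V := by
  intro V
  induction V using Nat.strong_induction_on with
  | _ V ih =>
    intro hVU
    by_cases hV : V ≤ 2 * W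
    · have h1 : ‖∑ n ∈ Ioc 0 V, f n‖ ≤ V := by
        refine (norm_sum_le _ _).trans ?_
        refine (Finset.sum_le_sum fun n _ => hf n).trans ?_
        simp
      have h2 : (V : ℝ) ≤ 2 * W := by exact_mod_cast hV
      have h3 : 0 ≤ 3 * ε * V := by positivity
      linarith
    · rw [not_le] at hV
      have hN1 : (V + 1) / 2 < V := by omega
      have hN2 : W ≤ (V + 1) / 2 := by omega
      have hN3 : (V + 1) / 2 ≤ V := by omega
      have hN4 : V ≤ 2 * ((V + 1) / 2) := by omega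
      have h1 := ih _ hN1 (by omega)
      have h2 := hb _ V hN2 hN3 hN4 hVU
      rw [← Finset.sum_Ioc_consecutive f (Nat.zero_le _) hN3]
      refine (norm_add_le _ _).trans ?_
      have h5 : 4 * ((V + 1) / 2) ≤ 3 * V := by omega
      have h6 : 4 * (((V + 1) / 2 : ℕ) : ℝ) ≤ 3 * (V : ℝ) := by exact_mod_cast h5
      nlinarith

/-- Row ES. -/
theorem ES (h1 : DYS_stmt) (h2 : EM_stmt) : ES_stmt := by
  intro A K
  obtain ⟨C, hC, hD⟩ := h1
  obtain ⟨c₁, hc₁⟩ : ∃ c₁ : ℝ, c₁ = 3 * K + 2 := ⟨_, rfl⟩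
  have hc₁pos : 0 < c₁ := by rw [hc₁]; positivity
  have hCpos : (0 : ℝ) < C := by exact_mod_cast hC
  have hev := ((ES_ev (Real.log 12) A 0 (1 / 8) (19 / 20) 0 (by norm_num) (by norm_num)
    (by norm_num)).and (ES_ev (Real.log 6) A (C * c₁ ^ 3) (1 / (3 * C * c₁ ^ 6)) (13 / 20) (3 / 20)
    (by positivity) (by norm_num) (by norm_num))).and (eventually_ge_atTop (12 : ℝ))
  obtain ⟨L₀, hL₀⟩ := eventually_atTop.1 hev
  refine ⟨A + 1, max (Real.exp L₀) 1, ?_⟩
  intro x hx t u θ ht1 ht2 hu hθ0 hθ1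
  have hxpos : 0 < x := lt_of_lt_of_le one_pos ((le_max_right _ _).trans hx)
  have hLL : L₀ ≤ Real.log x := by
    rw [Real.le_log_iff_exp_le hxpos]
    exact (le_max_left _ _).trans hx
  obtain ⟨⟨hE1, hE2⟩, hL12⟩ := hL₀ _ hLL
  obtain ⟨L, hL⟩ : ∃ L : ℝ, L = Real.log x := ⟨_, rfl⟩
  rw [← hL] at hE1 hE2 hL12 ht1
  have hdl : dl x = L ^ (19 / 20 : ℝ) := by rw [hL]; rfl
  rw [hdl] at hu
  rw [← hL]
  have hLpos : 0 < L := by linarith
  obtain ⟨D, hDdef⟩ : ∃ D : ℝ, D = L ^ (19 / 20 : ℝ) := ⟨_, rfl⟩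
  rw [← hDdef] at hu hE1
  have hDpos : 0 < D := by rw [hDdef]; positivity
  have hLA : 0 < L ^ A := by positivity
  -- 12 L^A ≤ exp (D/8)
  have hA12 : 12 * L ^ A ≤ Real.exp (D / 8) := by
    have h3 : Real.log (12 * L ^ A) ≤ D / 8 := by
      rw [Real.log_mul (by norm_num) hLA.ne', Real.log_pow]
      linarith
    exact (Real.log_le_iff_le_exp (by positivity)).1 h3
  have hupos : 0 < u := lt_of_lt_of_le (Real.exp_pos _) hu
  have hexp1 : (1 : ℝ) ≤ Real.exp (D / 8) := Real.one_le_exp (by positivity)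
  have hu8 : Real.exp (D / 8) ≤ u := (Real.exp_le_exp.2 (by linarith)).trans hu
  have hu12 : 12 * L ^ A ≤ u := hA12.trans hu8
  have hu1 : 1 ≤ u := hexp1.trans hu8
  have htpos : 0 < |t| := lt_of_lt_of_le (by positivity) ht1
  rcases le_or_gt (t ^ 2) u with hcase | hcase
  · -- large `u`
    have htne : t ≠ 0 := abs_pos.1 htpos
    refine (h2 t u θ htne hu1 hθ0 hθ1).trans ?_
    have e1 : 4 * u / |t| ≤ u / L ^ A / 3 := by
      have h3 : 12 * L ^ A ≤ |t| := by
        refine le_trans ?_ ht1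
        rw [pow_succ]
        nlinarith
      rw [div_div, div_le_div_iff₀ htpos (by positivity)]
      nlinarith
    have e2 : 1 ≤ u / L ^ A / 3 := by
      rw [div_div, le_div_iff₀ (by positivity)]
      linarith
    have e3 : |t| * Real.log u ≤ u / L ^ A / 3 := by
      obtain ⟨v, hv⟩ : ∃ v : ℝ, v = u ^ (1 / 4 : ℝ) := ⟨_, rfl⟩
      have hvpos : 0 < v := by rw [hv]; positivity
      have hv4 : v ^ 4 = u := by
        rw [hv, ← Real.rpow_natCast, ← Real.rpow_mul hupos.le]
        norm_num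
      have hlogu : Real.log u ≤ 4 * v := by
        rw [← hv4, Real.log_pow]
        have := Real.log_le_sub_one_of_pos hvpos
        push_cast
        linarith
      have htv : |t| ≤ v ^ 2 := by
        apply abs_le_of_sq_le_sq _ (by positivity)
        calc t ^ 2 ≤ u := hcase
          _ = (v ^ 2) ^ 2 := by rw [← hv4]; ring
      have hv12 : 12 * L ^ A ≤ v := by
        refine hA12.trans ?_
        have h3 : Real.exp (D / 8) = (Real.exp (D / 2)) ^ (1 / 4 : ℝ) := by
          rw [← Real.exp_mul]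
          congr 1
          ring
        rw [h3, hv]
        exact Real.rpow_le_rpow (Real.exp_pos _).le hu (by norm_num)
      rw [div_div, le_div_iff₀ (by positivity)]
      have h5 : |t| * Real.log u ≤ v ^ 2 * (4 * v) :=
        mul_le_mul htv hlogu (Real.log_nonneg hu1) (by positivity)
      calc |t| * Real.log u * (L ^ A * 3) ≤ v ^ 2 * (4 * v) * (L ^ A * 3) := by
            apply mul_le_mul_of_nonneg_right h5; positivity
        _ = v ^ 3 * (12 * L ^ A) := by ring
        _ ≤ v ^ 3 * v := by apply mul_le_mul_of_nonneg_left hv12; positivity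
        _ = u := by rw [← hv4]; ring
    have : u / L ^ A / 3 + u / L ^ A / 3 + u / L ^ A / 3 = u / L ^ A := by ring
    linarith
  · -- small `u`: dyadic blocks
    obtain ⟨lam, hlam⟩ : ∃ lam : ℝ, lam = L ^ (1 / 20 : ℝ) := ⟨_, rfl⟩
    have hlampos : 0 < lam := by rw [hlam]; positivity
    have hlam1 : 1 ≤ lam := by
      rw [hlam]
      exact Real.one_le_rpow (by linarith) (by norm_num)
    have hlam3 : lam ^ 3 = L ^ (3 / 20 : ℝ) := by
      rw [hlam, ← Real.rpow_natCast, ← Real.rpow_mul hLpos.le]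
      norm_num
    have hlam13 : lam ^ 13 = L ^ (13 / 20 : ℝ) := by
      rw [hlam, ← Real.rpow_natCast, ← Real.rpow_mul hLpos.le]
      norm_num
    have hlam19 : lam ^ 19 = D := by
      rw [hDdef, hlam, ← Real.rpow_natCast, ← Real.rpow_mul hLpos.le]
      norm_num
    have hlam20 : lam ^ 20 = L := by
      rw [hlam, ← Real.rpow_natCast, ← Real.rpow_mul hLpos.le]
      norm_num
    rw [← hlam3, ← hlam13] at hE2
    obtain ⟨l, hl⟩ : ∃ l : ℕ, l = ⌈3 * (K : ℝ) * lam⌉₊ + 1 := ⟨_, rfl⟩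
    have hl1 : 1 ≤ l := by omega
    have hlge : 3 * (K : ℝ) * lam ≤ l := by
      rw [hl]
      push_cast
      have := Nat.le_ceil (3 * (K : ℝ) * lam)
      linarith
    have hlle : (l : ℝ) ≤ c₁ * lam := by
      rw [hl, hc₁]
      push_cast
      have := Nat.ceil_lt_add_one (show 0 ≤ 3 * (K : ℝ) * lam by positivity)
      nlinarith
    have hlpos : (0 : ℝ) < l := by exact_mod_cast hl1
    -- the saving
    have hsave : Real.exp (C * (l : ℝ) ^ 3) * Real.exp (-(D / (3 * (C * (l : ℝ) ^ 6)))) ≤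
        1 / (6 * L ^ A) := by
      rw [← Real.exp_add, ← Real.le_log_iff_exp_le (by positivity), Real.log_div (by norm_num)
        (by positivity), Real.log_one, Real.log_mul (by norm_num) hLA.ne', Real.log_pow]
      have i1 : (C : ℝ) * (l : ℝ) ^ 3 ≤ C * c₁ ^ 3 * lam ^ 3 := by
        have : (l : ℝ) ^ 3 ≤ (c₁ * lam) ^ 3 := pow_le_pow_left₀ hlpos.le hlle 3
        rw [mul_pow] at this
        nlinarith
      have i2 : 1 / (3 * C * c₁ ^ 6) * lam ^ 13 ≤ D / (3 * (C * (l : ℝ) ^ 6)) := by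
        have h6 : (l : ℝ) ^ 6 ≤ c₁ ^ 6 * lam ^ 6 := by
          have : (l : ℝ) ^ 6 ≤ (c₁ * lam) ^ 6 := pow_le_pow_left₀ hlpos.le hlle 6
          rwa [mul_pow] at this
        have h7 : 1 / (3 * C * c₁ ^ 6) * lam ^ 13 = D / (3 * (C * (c₁ ^ 6 * lam ^ 6))) := by
          rw [← hlam19]
          field_simp
        rw [h7]
        apply div_le_div_of_nonneg_left hDpos.le (by positivity)
        have := mul_le_mul_of_nonneg_left h6 hCpos.le
        linarith
      linarith
    -- the threshold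
    obtain ⟨W, hW⟩ : ∃ W : ℕ, W = ⌊u / (4 * L ^ A)⌋₊ := ⟨_, rfl⟩
    have hW1 : 1 ≤ W := by
      rw [hW, Nat.one_le_floor_iff]
      rw [le_div_iff₀ (by positivity)]
      linarith
    have hWle : (W : ℝ) ≤ u / (4 * L ^ A) := by
      rw [hW]
      exact Nat.floor_le (by positivity)
    have hWge : u / (8 * L ^ A) ≤ W := by
      have h3 : u / (4 * L ^ A) < (W : ℝ) + 1 := by
        rw [hW]
        exact Nat.lt_floor_add_one _
      have h4 : 1 ≤ u / (8 * L ^ A) := by
        rw [le_div_iff₀ (by positivity)]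
        linarith
      have h5 : u / (4 * L ^ A) = u / (8 * L ^ A) + u / (8 * L ^ A) := by
        field_simp
        norm_num
      linarith
    have hWexp : Real.exp (D / 3) ≤ W := by
      refine le_trans ?_ hWge
      rw [le_div_iff₀ (by positivity)]
      calc Real.exp (D / 3) * (8 * L ^ A) ≤ Real.exp (D / 3) * Real.exp (D / 8) := by
            apply mul_le_mul_of_nonneg_left _ (Real.exp_pos _).le
            linarith
        _ = Real.exp (D / 3 + D / 8) := (Real.exp_add _ _).symm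
        _ ≤ Real.exp (D / 2) := Real.exp_le_exp.2 (by linarith)
        _ ≤ u := hu
    have hfloor : ((⌊u⌋₊ : ℕ) : ℝ) ≤ u := Nat.floor_le hupos.le
    have hblock : ∀ N N' : ℕ, W ≤ N → N ≤ N' → N' ≤ 2 * N → N' ≤ ⌊u⌋₊ →
        ‖∑ n ∈ Ioc N N', nit t (n + θ)‖ ≤ 1 / (6 * L ^ A) * N := by
      intro N N' hWN hNN' hN2 hNU
      have hWN' : (W : ℝ) ≤ N := by exact_mod_cast hWN
      have hN1 : 1 ≤ N := hW1.trans hWN
      have hNexp : Real.exp (D / 3) ≤ N := hWexp.trans hWN'
      have hNpos : (0 : ℝ) < N := by exact_mod_cast hN1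
      have hNu : (N : ℝ) ≤ u := by
        have h3 : ((N : ℕ) : ℝ) ≤ ((⌊u⌋₊ : ℕ) : ℝ) := by exact_mod_cast hNN'.trans hNU
        linarith
      have hsq : √(N : ℝ) ≤ |t| := by
        rw [← Real.sqrt_sq_eq_abs]
        exact Real.sqrt_le_sqrt (by linarith)
      have hpow : |t| ≤ (N : ℝ) ^ l := by
        refine ht2.trans ?_
        have h3 : x = Real.exp L := by rw [hL, Real.exp_log hxpos]
        calc x ^ K = Real.exp (K * L) := by rw [h3, ← Real.exp_nat_mul]
          _ ≤ Real.exp (l * (D / 3)) := by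
              apply Real.exp_le_exp.2
              have h4 : (K : ℝ) * L = 3 * K * lam * (D / 3) := by
                rw [← hlam19, ← hlam20]
                ring
              rw [h4]
              exact mul_le_mul_of_nonneg_right hlge (by positivity)
          _ = Real.exp (D / 3) ^ l := by rw [Real.exp_nat_mul]
          _ ≤ (N : ℝ) ^ l := pow_le_pow_left₀ (Real.exp_pos _).le hNexp l
      refine (hD l N N' t θ hl1 hN1 hNN' hN2 hsq hpow hθ0 hθ1).trans ?_
      rw [mul_comm (1 / (6 * L ^ A)) (N : ℝ)]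
      apply mul_le_mul_of_nonneg_left _ hNpos.le
      refine le_trans ?_ hsave
      apply mul_le_mul_of_nonneg_left _ (Real.exp_pos _).le
      have h5 : (N : ℝ) ^ (-(1 / ((C : ℝ) * (l : ℝ) ^ 6))) ≤
          Real.exp (D / 3) ^ (-(1 / ((C : ℝ) * (l : ℝ) ^ 6))) :=
        Real.rpow_le_rpow_of_nonpos (Real.exp_pos _) hNexp (by
          rw [neg_nonpos]; positivity)
      refine h5.trans (le_of_eq ?_)
      rw [← Real.exp_mul]
      congr 1
      field_simp
    have hfin := ES_dyadic (fun n => nit t (n + θ)) (fun n => (ES_norm t _).le) W ⌊u⌋₊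
      (1 / (6 * L ^ A)) (by positivity) hW1 hblock ⌊u⌋₊ le_rfl
    refine hfin.trans ?_
    have j1 : 2 * (W : ℝ) ≤ u / L ^ A / 2 := by
      have : u / L ^ A / 2 = 2 * (u / (4 * L ^ A)) := by field_simp; norm_num
      rw [this]
      linarith
    have j2 : 3 * (1 / (6 * L ^ A)) * ((⌊u⌋₊ : ℕ) : ℝ) ≤ u / L ^ A / 2 := by
      have : u / L ^ A / 2 = 3 * (1 / (6 * L ^ A)) * u := by field_simp; norm_num
      rw [this]
      exact mul_le_mul_of_nonneg_left hfloor (by positivity)
    have : u / L ^ A / 2 + u / L ^ A / 2 = u / L ^ A := by ring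
    linarith

end Pool.Agent.CH
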