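import Pool.Agent.helper17.CH.SpecW

/-!
Row ch:LPS (MP_5628fe_nt, project CH): partial summation against the smoothed window function.
-/

set_option autoImplicit false

namespace Pool.Agent.CH

open Finset MeasureTheory

/-- Abel summation. -/
theorem LPS_abel (f : ℕ → ℂ) (a : ℕ → ℝ) (X : ℕ) :
    ∑ j ∈ Ioc 0 X, f j * (a j : ℂ) =
      (∑ j ∈ Ioc 0 X, f j) * (a X : ℂ) -
        ∑ j ∈ range X, (∑ i ∈ Ioc 0 j, f i) * ((a (j + 1) - a j : ℝ) : ℂ) := by
  induction X with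
  | zero => simp
  | succ X ih =>
    rw [Finset.sum_Ioc_succ_top (Nat.zero_le X), Finset.sum_Ioc_succ_top (Nat.zero_le X), ih,
      sum_range_succ]
    push_cast
    ring

theorem LPS_anti {δ : ℝ} {u v : ℝ} (hδ : 0 < δ) (h : u ^ 2 ≤ v ^ 2) : ph δ v ≤ ph δ u := by
  unfold ph
  apply div_le_div_of_nonneg_right _ (by positivity)
  apply Real.exp_le_exp.2
  apply div_le_div_of_nonneg_right _ (by positivity)
  linarith

theorem LPS_pos {δ : ℝ} (hδ : 0 < δ) (u : ℝ) : 0 ≤ ph δ u := by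
  unfold ph
  positivity

theorem LPS_le0 {δ : ℝ} (hδ : 0 < δ) (u : ℝ) : ph δ u ≤ ph δ 0 := by
  apply LPS_anti hδ
  rw [zero_pow two_ne_zero]
  exact sq_nonneg u

theorem LPS_split (δ x : ℝ) : ph δ x = ph δ (min x 0) + ph δ (max x 0) - ph δ 0 := by
  rcases le_total x 0 with h | h
  · rw [min_eq_left h, max_eq_right h]; ring
  · rw [min_eq_right h, max_eq_left h]; ring

theorem LPS_var {δ w : ℝ} (hδ : 0 < δ) (X : ℕ) :
    ∑ j ∈ range X, |ph δ (Real.log ((j + 1 : ℕ) : ℝ) - w) - ph δ (Real.log (j : ℝ) - w)| ≤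
      2 * ph δ 0 := by
  have hlog : ∀ j : ℕ, Real.log (j : ℝ) ≤ Real.log ((j + 1 : ℕ) : ℝ) := by
    intro j
    rcases Nat.eq_zero_or_pos j with h | h
    · subst h; simp
    · apply Real.log_le_log (by exact_mod_cast h)
      push_cast; linarith
  have hA : ∀ j : ℕ, ph δ (min (Real.log (j : ℝ) - w) 0) ≤
      ph δ (min (Real.log ((j + 1 : ℕ) : ℝ) - w) 0) := by
    intro j
    apply LPS_anti hδ
    have h1 : min (Real.log (j : ℝ) - w) 0 ≤ min (Real.log ((j + 1 : ℕ) : ℝ) - w) 0 :=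
      min_le_min_right 0 (by linarith [hlog j])
    have h2 : min (Real.log ((j + 1 : ℕ) : ℝ) - w) 0 ≤ 0 := min_le_right _ _
    nlinarith
  have hB : ∀ j : ℕ, ph δ (max (Real.log ((j + 1 : ℕ) : ℝ) - w) 0) ≤
      ph δ (max (Real.log (j : ℝ) - w) 0) := by
    intro j
    apply LPS_anti hδ
    have h1 : max (Real.log (j : ℝ) - w) 0 ≤ max (Real.log ((j + 1 : ℕ) : ℝ) - w) 0 :=
      max_le_max_right 0 (by linarith [hlog j])
    have h2 : 0 ≤ max (Real.log (j : ℝ) - w) 0 := le_max_right _ _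
    nlinarith
  have hstep : ∀ j ∈ range X,
      |ph δ (Real.log ((j + 1 : ℕ) : ℝ) - w) - ph δ (Real.log (j : ℝ) - w)| ≤
      (ph δ (min (Real.log ((j + 1 : ℕ) : ℝ) - w) 0) - ph δ (min (Real.log (j : ℝ) - w) 0)) -
      (ph δ (max (Real.log ((j + 1 : ℕ) : ℝ) - w) 0) - ph δ (max (Real.log (j : ℝ) - w) 0)) := by
    intro j _
    rw [LPS_split δ (Real.log ((j + 1 : ℕ) : ℝ) - w), LPS_split δ (Real.log (j : ℝ) - w), abs_le]
    have h1 := hA j
    have h2 := hB j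
    constructor <;> linarith
  refine (sum_le_sum hstep).trans ?_
  rw [sum_sub_distrib, Finset.sum_range_sub (fun j : ℕ => ph δ (min (Real.log (j : ℝ) - w) 0)),
    Finset.sum_range_sub (fun j : ℕ => ph δ (max (Real.log (j : ℝ) - w) 0))]
  have h1 : ph δ (min (Real.log (X : ℝ) - w) 0) ≤ ph δ 0 := LPS_le0 hδ _
  have h2 : ph δ (max (Real.log ((0 : ℕ) : ℝ) - w) 0) ≤ ph δ 0 := LPS_le0 hδ _
  have h3 := LPS_pos hδ (min (Real.log ((0 : ℕ) : ℝ) - w) 0)
  have h4 := LPS_pos hδ (max (Real.log (X : ℝ) - w) 0)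
  linarith

/-- The inner sum for fixed `w`. -/
theorem LPS_inner {δ w E : ℝ} (hδ : 0 < δ) (X : ℕ) (f : ℕ → ℂ)
    (hf : ∀ u ≤ X, ‖∑ j ∈ Ioc 0 u, f j‖ ≤ E) :
    ‖∑ j ∈ Ioc 0 X, f j * ((ph δ (Real.log (j : ℝ) - w) : ℝ) : ℂ)‖ ≤ 3 * ph δ 0 * E := by
  have hE : 0 ≤ E := (norm_nonneg _).trans (hf 0 (Nat.zero_le X))
  have h := LPS_abel f (fun j : ℕ => ph δ (Real.log (j : ℝ) - w)) X
  simp only at h
  rw [h]
  have h1 : ‖(∑ j ∈ Ioc 0 X, f j) * ((ph δ (Real.log (X : ℝ) - w) : ℝ) : ℂ)‖ ≤ E * ph δ 0 := by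
    rw [norm_mul, Complex.norm_real, Real.norm_of_nonneg (LPS_pos hδ _)]
    exact mul_le_mul (hf X le_rfl) (LPS_le0 hδ _) (LPS_pos hδ _) hE
  have h2 : ‖∑ j ∈ range X, (∑ i ∈ Ioc 0 j, f i) *
      ((ph δ (Real.log ((j + 1 : ℕ) : ℝ) - w) - ph δ (Real.log (j : ℝ) - w) : ℝ) : ℂ)‖ ≤
      E * (2 * ph δ 0) := by
    calc _ ≤ ∑ j ∈ range X, ‖(∑ i ∈ Ioc 0 j, f i) *
        ((ph δ (Real.log ((j + 1 : ℕ) : ℝ) - w) - ph δ (Real.log (j : ℝ) - w) : ℝ) : ℂ)‖ :=
          norm_sum_le _ _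
      _ ≤ ∑ j ∈ range X, E *
          |ph δ (Real.log ((j + 1 : ℕ) : ℝ) - w) - ph δ (Real.log (j : ℝ) - w)| := by
          apply sum_le_sum
          intro j hj
          rw [norm_mul, Complex.norm_real, Real.norm_eq_abs]
          exact mul_le_mul_of_nonneg_right (hf j (mem_range.1 hj).le) (abs_nonneg _)
      _ = E * ∑ j ∈ range X,
          |ph δ (Real.log ((j + 1 : ℕ) : ℝ) - w) - ph δ (Real.log (j : ℝ) - w)| := by
          rw [mul_sum]
      _ ≤ E * (2 * ph δ 0) := mul_le_mul_of_nonneg_left (LPS_var hδ X) hE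
  refine (norm_sub_le _ _).trans ?_
  linarith

theorem LPS_cont (δ : ℝ) : Continuous (ph δ) := by
  unfold ph
  fun_prop

theorem LPS_ind (n : ℕ) (r : ℝ) :
    Integrable ((Set.Ioc (3 * Real.log n) (3 * Real.log ((n : ℝ) + 1))).indicator
      (fun _ : ℝ => r)) :=
  (integrable_indicator_iff measurableSet_Ioc).2 (integrableOn_const (by simp))

theorem LPS_CCint (N : ℕ) (c : ℕ → ℝ) : Integrable (CC N c) := by
  have h : CC N c = fun v => ∑ n ∈ Ico N (2 * N),
      (Set.Ioc (3 * Real.log n) (3 * Real.log ((n : ℝ) + 1))).indicator (fun _ => c n) v := rfl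
  rw [h]
  exact integrable_finsetSum _ fun n _ => LPS_ind n (c n)

theorem LPS_CCabs (N : ℕ) (c : ℕ → ℝ) (hN : 1 ≤ N) (hc : ∀ n, |c n| ≤ 1) :
    ∫ w : ℝ, |CC N c w| ≤ 3 * Real.log 2 := by
  have h1 : ∫ w : ℝ, |CC N c w| ≤ ∫ w : ℝ, ∑ n ∈ Ico N (2 * N),
      (Set.Ioc (3 * Real.log n) (3 * Real.log ((n : ℝ) + 1))).indicator (fun _ => (1 : ℝ)) w := by
    apply integral_mono (LPS_CCint N c).abs (integrable_finsetSum _ fun n _ => LPS_ind n 1)
    intro w
    simp only [CC]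
    refine (abs_sum_le_sum_abs _ _).trans ?_
    apply sum_le_sum
    intro n _
    unfold Set.indicator
    split_ifs
    · exact hc n
    · simp
  refine h1.trans ?_
  rw [integral_finsetSum _ fun n _ => LPS_ind n 1]
  have h2 : ∀ n ∈ Ico N (2 * N), ∫ w : ℝ,
      (Set.Ioc (3 * Real.log n) (3 * Real.log ((n : ℝ) + 1))).indicator (fun _ => (1 : ℝ)) w =
      3 * Real.log ((n + 1 : ℕ) : ℝ) - 3 * Real.log (n : ℝ) := by
    intro n hn
    have hn1 : 1 ≤ n := hN.trans (mem_Ico.1 hn).1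
    have hn0 : (0 : ℝ) < n := by exact_mod_cast hn1
    have hle : Real.log (n : ℝ) ≤ Real.log ((n : ℝ) + 1) := Real.log_le_log hn0 (by linarith)
    rw [integral_indicator measurableSet_Ioc, setIntegral_const, smul_eq_mul, mul_one,
      Measure.real, Real.volume_Ioc, ENNReal.toReal_ofReal (by linarith)]
    push_cast
    ring
  rw [sum_congr rfl h2, Finset.sum_Ico_sub (fun n : ℕ => 3 * Real.log (n : ℝ)) (by omega)]
  have hN0 : (0 : ℝ) < N := by exact_mod_cast hN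
  push_cast
  rw [Real.log_mul (by norm_num) hN0.ne']
  linarith

theorem LPS : LPS_stmt := by
  intro N X c δ E f hN hc hδ hδ1 hf
  have hE : 0 ≤ E := (norm_nonneg _).trans (hf 0 (Nat.zero_le X))
  have hint : ∀ v : ℝ, Integrable (fun w : ℝ => CC N c w * ph δ (v - w)) := by
    intro v
    have h := (LPS_CCint N c).bdd_mul (f := fun w : ℝ => ph δ (v - w)) (c := ph δ 0)
      (((LPS_cont δ).comp (continuous_const.sub continuous_id)).aestronglyMeasurable)
      (Filter.Eventually.of_forall fun w => by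
        rw [Real.norm_of_nonneg (LPS_pos hδ _)]
        exact LPS_le0 hδ _)
    have e : (fun w : ℝ => CC N c w * ph δ (v - w)) = fun w : ℝ => ph δ (v - w) * CC N c w := by
      funext w; ring
    rw [e]; exact h
  have hswap : ∑ j ∈ Ioc 0 X, f j * ((Ph N c δ (Real.log j) : ℝ) : ℂ) =
      ∫ w : ℝ, ((CC N c w : ℝ) : ℂ) * ∑ j ∈ Ioc 0 X, f j * ((ph δ (Real.log (j : ℝ) - w) : ℝ) : ℂ) := by
    have h1 : ∀ j ∈ Ioc 0 X, f j * ((Ph N c δ (Real.log j) : ℝ) : ℂ) =
        ∫ w : ℝ, f j * ((CC N c w * ph δ (Real.log (j : ℝ) - w) : ℝ) : ℂ) := by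
      intro j _
      rw [integral_const_mul, integral_complex_ofReal]
      rfl
    have hI : ∀ j ∈ Ioc 0 X, Integrable
        (fun w : ℝ => f j * ((CC N c w * ph δ (Real.log (j : ℝ) - w) : ℝ) : ℂ)) := fun j _ =>
      (hint (Real.log (j : ℝ))).ofReal.const_mul (f j)
    rw [sum_congr rfl h1, ← integral_finsetSum _ hI]
    congr 1
    funext w
    rw [mul_sum]
    apply sum_congr rfl
    intro j _
    push_cast
    ring
  rw [hswap]
  have hb : ∀ w : ℝ, ‖((CC N c w : ℝ) : ℂ) *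
      ∑ j ∈ Ioc 0 X, f j * ((ph δ (Real.log (j : ℝ) - w) : ℝ) : ℂ)‖ ≤
      |CC N c w| * (3 * ph δ 0 * E) := by
    intro w
    rw [norm_mul, Complex.norm_real, Real.norm_eq_abs]
    exact mul_le_mul_of_nonneg_left (LPS_inner hδ X f hf) (abs_nonneg _)
  refine (norm_integral_le_of_norm_le ((LPS_CCint N c).abs.mul_const _)
    (Filter.Eventually.of_forall hb)).trans ?_
  rw [integral_mul_const]
  have hp0 : ph δ 0 ≤ 1 / (5 / 2 * δ) := by
    unfold ph
    have e : Real.exp (-((0 : ℝ) ^ 2) / (2 * δ ^ 2)) = 1 := by simp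
    rw [e]
    apply one_div_le_one_div_of_le (by positivity)
    have h52 : (5 / 2 : ℝ) ≤ √(2 * Real.pi) := by
      apply Real.le_sqrt_of_sq_le
      have := Real.pi_gt_d2
      norm_num
      linarith
    nlinarith
  have hlog2 : Real.log 2 < 0.7 := by linarith [Real.log_two_lt_d9]
  have hlog0 : 0 < Real.log 2 := Real.log_pos (by norm_num)
  calc (∫ w : ℝ, |CC N c w|) * (3 * ph δ 0 * E)
      ≤ (3 * Real.log 2) * (3 * ph δ 0 * E) := by
        apply mul_le_mul_of_nonneg_right (LPS_CCabs N c hN hc)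
        have := LPS_pos hδ 0
        positivity
    _ ≤ (3 * 0.7) * (3 * (1 / (5 / 2 * δ)) * E) := by
        apply mul_le_mul (by linarith) _ (by have := LPS_pos hδ 0; positivity) (by norm_num)
        apply mul_le_mul_of_nonneg_right _ hE
        linarith
    _ = 2.52 * (E / δ) := by
        field_simp
        ring
    _ ≤ 4 * (E / δ) := by
        apply mul_le_mul_of_nonneg_right (by norm_num) (by positivity)
    _ = 4 * E / δ := by ring

end Pool.Agent.CH
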