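import Pool.Agent.helper17.CH.SpecW
import Pool.Agent.helper43.CH.LPS

/-!
Row ch:SUP (MP_5628fe_nt, project CH): pointwise bounds of Dirichlet polynomials over primes.
-/

set_option autoImplicit false

namespace Pool.Agent.CH

open Finset ArithmeticFunction MeasureTheory Filter
open Pool.Agent.helper85.BVP (trunc beta Mr Zr)

theorem SUP_powcmp (a : ℕ) (c L y : ℝ) (hc : 0 < c) (hL : 1 ≤ L) (h : (1 / c) ^ (a + 1) ≤ L)
    (hy : c * L ≤ y) : L ^ a ≤ y ^ (a + 1) := by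
  have h1 : (c * L) ^ (a + 1) ≤ y ^ (a + 1) := pow_le_pow_left₀ (by positivity) hy _
  refine le_trans ?_ h1
  rw [mul_pow, pow_succ L a]
  have h2 : 1 ≤ c ^ (a + 1) * L := by
    have h3 : c ^ (a + 1) * (1 / c) ^ (a + 1) = 1 := by
      rw [← mul_pow, mul_one_div_cancel hc.ne', one_pow]
    calc (1 : ℝ) = c ^ (a + 1) * (1 / c) ^ (a + 1) := h3.symm
      _ ≤ c ^ (a + 1) * L := mul_le_mul_of_nonneg_left h (by positivity)
  calc L ^ a = 1 * L ^ a := by ring
    _ ≤ (c ^ (a + 1) * L) * L ^ a := mul_le_mul_of_nonneg_right h2 (by positivity)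
    _ = c ^ (a + 1) * (L ^ a * L) := by ring

/-- Eventual facts on `N`. -/
theorem SUP_ev (ε : ℝ) (hε : 0 < ε) (x₀ c : ℝ) (A : ℕ) : ∃ N₀ : ℕ, ∀ N : ℕ, N₀ ≤ N →
    x₀ ≤ (N : ℝ) ^ (ε / 2) ∧ c ≤ Real.log N ∧ 3 ≤ N ∧
      8 * Real.log N ^ (A + 3) ≤ (N : ℝ) ^ (ε / 2) := by
  have h1 : ∀ᶠ x : ℝ in atTop, x₀ ≤ x ^ (ε / 2) :=
    (tendsto_rpow_atTop (by positivity)).eventually_ge_atTop x₀
  have h2 : ∀ᶠ x : ℝ in atTop, c ≤ Real.log x := Real.tendsto_log_atTop.eventually_ge_atTop c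
  have h3 : ∀ᶠ x : ℝ in atTop, (3 : ℝ) ≤ x := eventually_ge_atTop 3
  have h4 : ∀ᶠ x : ℝ in atTop, 8 * Real.log x ^ (A + 3) ≤ x ^ (ε / 2) := by
    have h := (isLittleO_log_rpow_rpow_atTop ((A + 3 : ℕ) : ℝ) (show (0 : ℝ) < ε / 2 by positivity)).def
      (show (0 : ℝ) < 1 / 8 by norm_num)
    filter_upwards [h, eventually_ge_atTop (1 : ℝ)] with x hx hx1
    have hl : 0 ≤ Real.log x := Real.log_nonneg hx1
    rw [Real.rpow_natCast, Real.norm_of_nonneg (by positivity), Real.norm_of_nonneg (by positivity)] at hx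
    linarith
  obtain ⟨y, hy⟩ := (h1.and (h2.and (h3.and h4))).exists_forall_of_atTop
  refine ⟨⌈y⌉₊, fun N hN => ?_⟩
  have hyN : y ≤ (N : ℝ) := (Nat.le_ceil y).trans (by exact_mod_cast hN)
  obtain ⟨a, b, c, d⟩ := hy N hyN
  exact ⟨a, b, by exact_mod_cast c, d⟩

theorem SUP_core (h : VP_stmt) (ε : ℝ) (A B : ℕ) (hε : 0 < ε) :
    ∃ B₁ N₀ : ℕ, ∀ N : ℕ, N₀ ≤ N → ∀ q : ℕ, 1 ≤ q → (q : ℝ) ≤ Real.log N ^ B →
    ∀ χ : DirichletCharacter ℂ q, ∀ t : ℝ, Real.log N ^ B₁ ≤ |t| → |t| ≤ (N : ℝ) ^ 2 →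
    ∀ X : ℕ, (N : ℝ) ^ (ε / 2) ≤ X → X ≤ 128 * N ^ 3 →
    ‖∑ n ∈ Ioc 0 X, (vonMangoldt n : ℂ) * χ n * nit t n‖ ≤ X / Real.log N ^ A ∧
    ‖∑ n ∈ Ioc 0 X, ((moebius n : ℤ) : ℂ) * χ n * nit t n‖ ≤ X / Real.log N ^ A := by
  obtain ⟨b, x₀, hv⟩ := h (A + 1) (B + 1) ⌈4 / ε⌉₊
  obtain ⟨N₀, hN₀⟩ := SUP_ev ε hε x₀ (1 + Real.log 128 + 4 ^ b + (1 / (ε / 2)) ^ (B + 1) +
    (1 / (ε / 2)) ^ (A + 1)) 0
  refine ⟨b + 1, N₀, ?_⟩
  intro N hN q hq1 hq χ t ht1 ht2 X hX1 hX2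
  obtain ⟨e1, e2, e3, -⟩ := hN₀ N hN
  have hN1 : (1 : ℝ) ≤ N := by exact_mod_cast (by omega : 1 ≤ N)
  have hN0 : (0 : ℝ) < N := by linarith
  have hp1 : (0 : ℝ) < 4 ^ b := by positivity
  have hp2 : (0 : ℝ) < (1 / (ε / 2)) ^ (B + 1) := by positivity
  have hp3 : (0 : ℝ) < (1 / (ε / 2)) ^ (A + 1) := by positivity
  have hp4 : (0 : ℝ) < Real.log 128 := Real.log_pos (by norm_num)
  set L := Real.log (N : ℝ) with hLdef
  have hL1 : 1 ≤ L := by linarith
  have hX0 : (0 : ℝ) < X := lt_of_lt_of_le (by positivity) hX1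
  have hlo : ε / 2 * L ≤ Real.log X := by
    have := Real.log_le_log (by positivity) hX1
    rwa [Real.log_rpow hN0] at this
  have hhi : Real.log X ≤ 4 * L := by
    have h1 : (X : ℝ) ≤ 128 * (N : ℝ) ^ 3 := by exact_mod_cast hX2
    have h2 := Real.log_le_log hX0 h1
    rw [Real.log_mul (by norm_num) (by positivity), Real.log_pow] at h2
    push_cast at h2
    linarith
  have hlX0 : 0 ≤ Real.log X := le_trans (by positivity) hlo
  have c1 : Real.log X ^ b ≤ |t| := by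
    calc Real.log X ^ b ≤ (4 * L) ^ b := pow_le_pow_left₀ hlX0 hhi b
      _ = 4 ^ b * L ^ b := by rw [mul_pow]
      _ ≤ L * L ^ b := mul_le_mul_of_nonneg_right (by linarith) (by positivity)
      _ = L ^ (b + 1) := by ring
      _ ≤ |t| := ht1
  have c2 : |t| ≤ (X : ℝ) ^ ⌈4 / ε⌉₊ := by
    calc |t| ≤ (N : ℝ) ^ 2 := ht2
      _ = (N : ℝ) ^ (2 : ℝ) := by norm_cast
      _ ≤ (N : ℝ) ^ (ε / 2 * (⌈4 / ε⌉₊ : ℝ)) := by
          apply Real.rpow_le_rpow_of_exponent_le hN1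
          have h1 : 4 / ε ≤ (⌈4 / ε⌉₊ : ℝ) := Nat.le_ceil _
          calc (2 : ℝ) = ε / 2 * (4 / ε) := by field_simp; norm_num
            _ ≤ ε / 2 * (⌈4 / ε⌉₊ : ℝ) := mul_le_mul_of_nonneg_left h1 (by positivity)
      _ = ((N : ℝ) ^ (ε / 2)) ^ ⌈4 / ε⌉₊ := by
          rw [Real.rpow_mul hN0.le, Real.rpow_natCast]
      _ ≤ (X : ℝ) ^ ⌈4 / ε⌉₊ := pow_le_pow_left₀ (by positivity) hX1 _
  have c3 : (q : ℝ) ≤ Real.log X ^ (B + 1) :=
    hq.trans (SUP_powcmp B (ε / 2) L (Real.log X) (by positivity) hL1 (by linarith) hlo)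
  have c4 : L ^ A ≤ Real.log X ^ (A + 1) :=
    SUP_powcmp A (ε / 2) L (Real.log X) (by positivity) hL1 (by linarith) hlo
  have c5 : (X : ℝ) / Real.log X ^ (A + 1) ≤ X / L ^ A :=
    div_le_div_of_nonneg_left hX0.le (by positivity) c4
  obtain ⟨v1, v2⟩ := hv (X : ℝ) (e1.trans hX1) q hq1 c3 χ t c1 c2
  rw [Nat.floor_natCast] at v1 v2
  exact ⟨v1.trans c5, v2.trans c5⟩

/-- Difference of two partial sums. -/
theorem SUP_diff (f : ℕ → ℂ) (lo hi D : ℝ) (hD : 0 < D)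
    (h : ∀ X : ℕ, lo ≤ X → (X : ℝ) ≤ hi → ‖∑ n ∈ Ioc 0 X, f n‖ ≤ X / D) (a b : ℕ)
    (ha : lo ≤ a) (hb : (b : ℝ) ≤ hi) : ‖∑ n ∈ Ioc a b, f n‖ ≤ 2 * b / D := by
  rcases le_total a b with hab | hab
  · have hab' : (a : ℝ) ≤ b := by exact_mod_cast hab
    have h1 := h a ha (hab'.trans hb)
    have h2 := h b (ha.trans hab') hb
    have e := Finset.sum_Ioc_consecutive f (Nat.zero_le a) hab
    have e' : ∑ n ∈ Ioc a b, f n = ∑ n ∈ Ioc 0 b, f n - ∑ n ∈ Ioc 0 a, f n := by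
      rw [← e]; ring
    rw [e']
    refine (norm_sub_le _ _).trans ?_
    calc ‖∑ n ∈ Ioc 0 b, f n‖ + ‖∑ n ∈ Ioc 0 a, f n‖ ≤ b / D + a / D := add_le_add h2 h1
      _ ≤ b / D + b / D := by
          have := div_le_div_of_nonneg_right hab' hD.le
          linarith
      _ = 2 * b / D := by ring
  · rw [Ioc_eq_empty (by omega), sum_empty, norm_zero]
    positivity

theorem SUP_fibre (K : ℕ) (Φ : ℕ × ℕ → ℂ) :
    ∑ k ∈ Ico K (2 * K), ∑ x ∈ k.divisorsAntidiagonal, Φ x =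
      ∑ e ∈ Ioc 0 (2 * K), ∑ d ∈ (Ioc 0 (2 * K)).filter (fun d => K ≤ d * e ∧ d * e < 2 * K),
        Φ (d, e) := by
  have h1 : ∑ k ∈ Ico K (2 * K), ∑ x ∈ k.divisorsAntidiagonal, Φ x =
      ∑ x ∈ ((Ioc 0 (2 * K)) ×ˢ (Ioc 0 (2 * K))).filter
        (fun x => K ≤ x.1 * x.2 ∧ x.1 * x.2 < 2 * K), Φ x := by
    rw [← sum_fiberwise_of_maps_to (s := ((Ioc 0 (2 * K)) ×ˢ (Ioc 0 (2 * K))).filter
        (fun x => K ≤ x.1 * x.2 ∧ x.1 * x.2 < 2 * K)) (t := Ico K (2 * K))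
        (g := fun x : ℕ × ℕ => x.1 * x.2)
        (fun x hx => mem_Ico.2 (mem_filter.1 hx).2)]
    apply sum_congr rfl
    intro k hk
    apply sum_congr _ (fun _ _ => rfl)
    rw [mem_Ico] at hk
    ext x
    rw [Nat.mem_divisorsAntidiagonal, mem_filter, mem_filter, mem_product, mem_Ioc, mem_Ioc]
    constructor
    · rintro ⟨e1, e2⟩
      have hx1 : 0 < x.1 := Nat.pos_of_ne_zero (by rintro h0; rw [h0] at e1; omega)
      have hx2 : 0 < x.2 := Nat.pos_of_ne_zero (by rintro h0; rw [h0] at e1; omega)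
      have hx1' : x.1 ≤ k := e1 ▸ Nat.le_mul_of_pos_right x.1 hx2
      have hx2' : x.2 ≤ k := e1 ▸ Nat.le_mul_of_pos_left x.2 hx1
      exact ⟨⟨⟨⟨hx1, by omega⟩, ⟨hx2, by omega⟩⟩, by omega, by omega⟩, e1⟩
    · rintro ⟨⟨-, -, -⟩, e1⟩
      exact ⟨e1, by omega⟩
  rw [h1, sum_filter, sum_product_right]
  apply sum_congr rfl
  intro e _
  rw [sum_filter]

theorem SUP_beta (U k : ℕ) : beta U k =
    ∑ x ∈ k.divisorsAntidiagonal, if U < x.1 then ((moebius x.1 : ℤ) : ℝ) else 0 := by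
  rw [beta, sub_eq_add_neg, ArithmeticFunction.mul_apply]
  apply sum_congr rfl
  intro x hx
  have hx2 : x.2 ≠ 0 := by
    rw [Nat.mem_divisorsAntidiagonal] at hx
    rintro h0
    rw [h0, mul_zero] at hx
    exact hx.2 hx.1.symm
  rw [ArithmeticFunction.add_apply, ArithmeticFunction.neg_apply,
    Pool.Agent.helper85.BVP.trunc_apply]
  have hz : (Zr : ArithmeticFunction ℝ) x.2 = 1 := by
    simp [hx2]
  rw [hz, mul_one]
  by_cases h : x.1 ≤ U
  · rw [if_pos h, if_neg (by omega), add_neg_cancel]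
  · rw [if_neg h, if_pos (by omega), neg_zero, add_zero]
    simp

theorem SUP_nit_mul (t : ℝ) (d e : ℕ) (hd : d ≠ 0) (he : e ≠ 0) :
    nit t ((d * e : ℕ) : ℝ) = nit t (d : ℝ) * nit t (e : ℝ) := by
  unfold nit
  rw [← Complex.exp_add]
  congr 1
  push_cast
  rw [← add_mul]
  congr 1
  have hd' : (d : ℝ) ≠ 0 := by exact_mod_cast hd
  have he' : (e : ℝ) ≠ 0 := by exact_mod_cast he
  rw [Real.log_mul hd' he']
  push_cast
  ring

theorem SUP_nit_norm (t x : ℝ) : ‖nit t x‖ = 1 := by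
  rw [nit, Complex.norm_exp_ofReal_mul_I]

theorem SUP_harm (n : ℕ) : ∑ e ∈ Ioc 0 n, 1 / (e : ℝ) ≤ 1 + Real.log n := by
  have h := harmonic_le_one_add_log n
  rw [harmonic_eq_sum_Icc] at h
  push_cast at h
  have e1 : Ioc 0 n = Icc 1 n := by
    ext k; rw [mem_Ioc, mem_Icc]; omega
  rw [e1]
  simpa [one_div] using h

/-- The `e`-th inner sum. -/
theorem SUP_inner {q : ℕ} (χ : DirichletCharacter ℂ q) (t : ℝ) (K U e : ℕ) (he : 0 < e) (hK : 1 ≤ K) :
    ∑ d ∈ (Ioc 0 (2 * K)).filter (fun d => K ≤ d * e ∧ d * e < 2 * K),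
      (((if U < d then ((moebius d : ℤ) : ℝ) else 0 : ℝ) : ℂ) * χ ((d * e : ℕ) : ZMod q) *
        nit t ((d * e : ℕ) : ℝ)) =
      χ (e : ZMod q) * nit t (e : ℝ) *
        ∑ d ∈ Ioc (max U ((K - 1) / e)) ((2 * K - 1) / e),
          ((moebius d : ℤ) : ℂ) * χ (d : ZMod q) * nit t (d : ℝ) := by
  rw [mul_sum, sum_filter]
  have h1 : ∀ d ∈ Ioc 0 (2 * K), (if K ≤ d * e ∧ d * e < 2 * K then
      (((if U < d then ((moebius d : ℤ) : ℝ) else 0 : ℝ) : ℂ) * χ ((d * e : ℕ) : ZMod q) *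
        nit t ((d * e : ℕ) : ℝ)) else 0) =
      if (max U ((K - 1) / e) < d ∧ d ≤ (2 * K - 1) / e) then
        χ (e : ZMod q) * nit t (e : ℝ) *
          (((moebius d : ℤ) : ℂ) * χ (d : ZMod q) * nit t (d : ℝ)) else 0 := by
    intro d hd
    rw [mem_Ioc] at hd
    have a1 : (K - 1) / e < d ↔ K ≤ d * e := by
      rw [Nat.div_lt_iff_lt_mul he]; omega
    have a2 : d ≤ (2 * K - 1) / e ↔ d * e < 2 * K := by
      rw [Nat.le_div_iff_mul_le he]; omega
    by_cases hU : U < d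
    · by_cases hc : K ≤ d * e ∧ d * e < 2 * K
      · rw [if_pos hc, if_pos hU, if_pos ⟨max_lt hU (a1.2 hc.1), a2.2 hc.2⟩,
          SUP_nit_mul t d e (by omega) (by omega)]
        push_cast
        rw [map_mul]
        ring
      · rw [if_neg hc, if_neg (fun hh => hc ⟨a1.1 (max_lt_iff.1 hh.1).2, a2.1 hh.2⟩)]
    · rw [if_neg hU, if_neg (fun hh : (max U ((K - 1) / e) < d ∧ d ≤ (2 * K - 1) / e) =>
        hU (max_lt_iff.1 hh.1).1)]
      simp
  rw [sum_congr rfl h1, ← sum_filter]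
  apply sum_congr _ (fun _ _ => rfl)
  ext d
  rw [mem_filter, mem_Ioc, mem_Ioc]
  constructor
  · exact fun hh => hh.2
  · intro hh
    refine ⟨⟨by omega, ?_⟩, hh⟩
    have : (2 * K - 1) / e ≤ 2 * K - 1 := Nat.div_le_self _ _
    omega

theorem SUP_abel (f : ℕ → ℂ) (a : ℕ → ℝ) (X : ℕ) (E : ℝ) (ha : ∀ j, a (j + 1) ≤ a j)
    (h0 : ∀ j, 0 ≤ a j) (hf : ∀ u ≤ X, ‖∑ j ∈ Ioc 0 u, f j‖ ≤ E) :
    ‖∑ j ∈ Ioc 0 X, f j * (a j : ℂ)‖ ≤ E * a 0 := by
  rw [LPS_abel]
  have h1 : ‖(∑ j ∈ Ioc 0 X, f j) * (a X : ℂ)‖ ≤ E * a X := by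
    rw [norm_mul, Complex.norm_real, Real.norm_of_nonneg (h0 X)]
    exact mul_le_mul_of_nonneg_right (hf X le_rfl) (h0 X)
  have h2 : ‖∑ j ∈ range X, (∑ i ∈ Ioc 0 j, f i) * ((a (j + 1) - a j : ℝ) : ℂ)‖ ≤
      E * (a 0 - a X) := by
    calc _ ≤ ∑ j ∈ range X, ‖(∑ i ∈ Ioc 0 j, f i) * ((a (j + 1) - a j : ℝ) : ℂ)‖ := norm_sum_le _ _
      _ ≤ ∑ j ∈ range X, E * (a j - a (j + 1)) := by
          apply sum_le_sum
          intro j hj
          rw [norm_mul, Complex.norm_real, Real.norm_eq_abs, abs_sub_comm,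
            abs_of_nonneg (by linarith [ha j])]
          exact mul_le_mul_of_nonneg_right (hf j (mem_range.1 hj).le) (by linarith [ha j])
      _ = E * (a 0 - a X) := by
          rw [← mul_sum, Finset.sum_range_sub']
  refine (norm_sub_le _ _).trans ?_
  linarith

/-- Sum over primes with weight `log p`. -/
theorem SUP_theta {q : ℕ} (χ : DirichletCharacter ℂ q) (t : ℝ) (u : ℕ) (hu : 1 ≤ u) (R : ℝ)
    (h : ‖∑ n ∈ Ioc 0 u, (vonMangoldt n : ℂ) * χ n * nit t n‖ ≤ R) :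
    ‖∑ n ∈ (Ioc 0 u).filter (fun n => n.Prime), (Real.log n : ℂ) * χ n * nit t n‖ ≤
      R + 2 * √(u : ℝ) * Real.log u := by
  have hd : ∀ n : ℕ, 0 ≤ vonMangoldt n - (if n.Prime then Real.log n else 0) := by
    intro n
    by_cases hp : n.Prime
    · rw [if_pos hp, vonMangoldt_apply_prime hp, sub_self]
    · rw [if_neg hp, sub_zero]; exact vonMangoldt_nonneg
  have e1 : ∑ n ∈ (Ioc 0 u).filter (fun n => n.Prime), (Real.log n : ℂ) * χ n * nit t n =
      ∑ n ∈ Ioc 0 u, (vonMangoldt n : ℂ) * χ n * nit t n -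
      ∑ n ∈ Ioc 0 u, ((vonMangoldt n - (if n.Prime then Real.log n else 0) : ℝ) : ℂ) *
        χ n * nit t n := by
    rw [← sum_sub_distrib, sum_filter]
    apply sum_congr rfl
    intro n _
    by_cases hp : n.Prime
    · rw [if_pos hp, if_pos hp]; push_cast; ring
    · rw [if_neg hp, if_neg hp]; push_cast; ring
  rw [e1]
  refine (norm_sub_le _ _).trans ?_
  apply add_le_add h
  calc ‖∑ n ∈ Ioc 0 u, ((vonMangoldt n - (if n.Prime then Real.log n else 0) : ℝ) : ℂ) *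
        χ n * nit t n‖
      ≤ ∑ n ∈ Ioc 0 u, (vonMangoldt n - (if n.Prime then Real.log n else 0)) := by
        refine (norm_sum_le _ _).trans ?_
        apply sum_le_sum
        intro n _
        rw [norm_mul, norm_mul, SUP_nit_norm, mul_one, Complex.norm_real,
          Real.norm_of_nonneg (hd n)]
        calc (vonMangoldt n - (if n.Prime then Real.log n else 0)) * ‖χ n‖
            ≤ (vonMangoldt n - (if n.Prime then Real.log n else 0)) * 1 :=
              mul_le_mul_of_nonneg_left (DirichletCharacter.norm_le_one χ _) (hd n)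
          _ = _ := mul_one _
    _ = Chebyshev.psi u - Chebyshev.theta u := by
        rw [Chebyshev.psi, Chebyshev.theta, Nat.floor_natCast, sum_sub_distrib, sum_filter]
    _ ≤ 2 * √(u : ℝ) * Real.log u := by
        have := Chebyshev.abs_psi_sub_theta_le_sqrt_mul_log (x := (u : ℝ)) (by exact_mod_cast hu)
        exact (le_abs_self _).trans this

theorem SUP_main1 {q : ℕ} (χ : DirichletCharacter ℂ q) (t : ℝ) (M U : ℕ) (hM : 1 ≤ M) :
    DPb M (fun m => if U < m then (vonMangoldt m : ℂ) * χ m else 0) t =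
      ∑ m ∈ Ioc (max (M - 1) U) (2 * M - 1), (vonMangoldt m : ℂ) * χ m * nit t m := by
  unfold DPb
  have e : Ioc (max (M - 1) U) (2 * M - 1) = (Ico M (2 * M)).filter (fun m => U < m) := by
    ext m; rw [mem_Ioc, mem_filter, mem_Ico, max_lt_iff]; omega
  rw [e, sum_filter]
  apply sum_congr rfl
  intro m _
  beta_reduce
  by_cases hU : U < m
  · rw [if_pos hU, if_pos hU]
  · rw [if_neg hU, if_neg hU, zero_mul]

theorem SUP_main2 {q : ℕ} (χ : DirichletCharacter ℂ q) (t : ℝ) (K U : ℕ) (hK : 1 ≤ K) :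
    DPb K (fun k => ((beta U k : ℝ) : ℂ) * χ k) t =
      ∑ e ∈ Ioc 0 (2 * K), χ (e : ZMod q) * nit t (e : ℝ) *
        ∑ d ∈ Ioc (max U ((K - 1) / e)) ((2 * K - 1) / e),
          ((moebius d : ℤ) : ℂ) * χ (d : ZMod q) * nit t (d : ℝ) := by
  have h1 : DPb K (fun k => ((beta U k : ℝ) : ℂ) * χ k) t =
      ∑ k ∈ Ico K (2 * K), ∑ x ∈ k.divisorsAntidiagonal,
        (fun x : ℕ × ℕ => (((if U < x.1 then ((moebius x.1 : ℤ) : ℝ) else 0 : ℝ) : ℂ) *
          χ ((x.1 * x.2 : ℕ) : ZMod q) * nit t ((x.1 * x.2 : ℕ) : ℝ))) x := by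
    unfold DPb
    apply sum_congr rfl
    intro k _
    beta_reduce
    rw [SUP_beta, Complex.ofReal_sum, sum_mul, sum_mul]
    apply sum_congr rfl
    intro x hx
    rw [Nat.mem_divisorsAntidiagonal] at hx
    rw [hx.1]
  rw [h1, SUP_fibre]
  apply sum_congr rfl
  intro e he
  exact SUP_inner χ t K U e (mem_Ioc.1 he).1 hK

theorem SUP_main3 {q : ℕ} (χ : DirichletCharacter ℂ q) (t : ℝ) (M₁ M₂ : ℕ) (E : ℝ) (hM : 3 ≤ M₁)
    (hE : ∀ u : ℕ, M₁ ≤ u + 1 → u + 1 ≤ M₂ →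
      ‖∑ n ∈ (Ioc 0 u).filter (fun n => n.Prime), (Real.log n : ℂ) * χ n * nit t n‖ ≤ E) (hE0 : 0 ≤ E) :
    ‖∑ p ∈ Ico M₁ M₂ with p.Prime, χ p * nit t p‖ ≤ 2 * E := by
  set F : ℕ → ℂ := fun n => (Real.log n : ℂ) * χ n * nit t n with hF
  set f : ℕ → ℂ := fun j => if M₁ ≤ j ∧ j.Prime then F j else 0 with hf
  set a : ℕ → ℝ := fun j => 1 / Real.log ((max j M₁ : ℕ) : ℝ) with ha
  have hlog : ∀ j : ℕ, 1 ≤ Real.log ((max j M₁ : ℕ) : ℝ) := by
    intro j
    have h3 : (3 : ℝ) ≤ ((max j M₁ : ℕ) : ℝ) := by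
      exact_mod_cast hM.trans (le_max_right j M₁)
    rw [Real.le_log_iff_exp_le (by linarith)]
    have := Real.exp_one_lt_d9
    linarith
  have e1 : ∑ p ∈ Ico M₁ M₂ with p.Prime, χ p * nit t p = ∑ j ∈ Ioc 0 (M₂ - 1), f j * (a j : ℂ) := by
    have e2 : ∀ j ∈ Ioc 0 (M₂ - 1), f j * (a j : ℂ) =
        if M₁ ≤ j ∧ j.Prime then χ j * nit t j else 0 := by
      intro j _
      simp only [hf, ha, hF]
      split_ifs with hc
      · rw [max_eq_left hc.1]
        have hl : Real.log (j : ℝ) ≠ 0 := by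
          have := hlog j
          rw [max_eq_left hc.1] at this
          linarith
        have hl' : ((Real.log (j : ℝ) : ℝ) : ℂ) ≠ 0 := Complex.ofReal_ne_zero.2 hl
        rw [Complex.ofReal_div, Complex.ofReal_one]
        field_simp
      · simp
    rw [sum_congr rfl e2, ← sum_filter]
    apply sum_congr _ (fun _ _ => rfl)
    ext j
    rw [mem_filter, mem_filter, mem_Ico, mem_Ioc]
    constructor
    · rintro ⟨h1, h2⟩
      exact ⟨by omega, h1.1, h2⟩
    · rintro ⟨h1, h2, h3⟩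
      exact ⟨⟨h2, by omega⟩, h3⟩
  have e3 : ‖∑ j ∈ Ioc 0 (M₂ - 1), f j * (a j : ℂ)‖ ≤ (2 * E) * a 0 := by
    apply SUP_abel
    · intro j
      apply one_div_le_one_div_of_le (by linarith [hlog j])
      apply Real.log_le_log
      · exact_mod_cast lt_of_lt_of_le (by omega : 0 < M₁) (le_max_right j M₁)
      · exact_mod_cast max_le_max_right M₁ (Nat.le_succ j)
    · intro j
      have := hlog j
      exact one_div_nonneg.2 (by linarith)
    · intro u hu
      rcases Nat.lt_or_ge u M₁ with hlt | hge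
      · rw [sum_eq_zero, norm_zero]
        · positivity
        · intro j hj
          rw [mem_Ioc] at hj
          simp only [hf]
          rw [if_neg (by omega)]
      · have e4 : ∑ j ∈ Ioc 0 u, f j = ∑ n ∈ (Ioc 0 u).filter (fun n => n.Prime), F n -
            ∑ n ∈ (Ioc 0 (M₁ - 1)).filter (fun n => n.Prime), F n := by
          rw [eq_sub_iff_add_eq, sum_filter, sum_filter]
          have e5 : ∑ n ∈ Ioc 0 (M₁ - 1), (if n.Prime then F n else 0) =
              ∑ n ∈ Ioc 0 u, if n < M₁ then (if n.Prime then F n else 0) else 0 := by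
            have e7 : Ioc 0 (M₁ - 1) = (Ioc 0 u).filter (fun n => n < M₁) := by
              ext n
              rw [mem_filter, mem_Ioc, mem_Ioc]
              omega
            rw [e7, sum_filter]
          rw [e5, ← sum_add_distrib]
          apply sum_congr rfl
          intro n _
          simp only [hf]
          by_cases hp : n.Prime
          · by_cases hn : n < M₁
            · rw [if_neg (by omega), if_pos hn, if_pos hp]; ring
            · rw [if_pos ⟨by omega, hp⟩, if_neg hn, if_pos hp]; ring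
          · rw [if_neg (fun hh => hp hh.2), if_neg hp]; simp
        rw [e4]
        refine (norm_sub_le _ _).trans ?_
        have g1 := hE u (by omega) (by omega)
        have g2 := hE (M₁ - 1) (by omega) (by omega)
        linarith
  have e6 : a 0 ≤ 1 := by
    simp only [ha]
    have := hlog 0
    rw [div_le_one (by linarith)]
    exact this
  rw [e1]
  refine e3.trans ?_
  calc (2 * E) * a 0 ≤ (2 * E) * 1 := mul_le_mul_of_nonneg_left e6 (by positivity)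
    _ = 2 * E := mul_one _

theorem SUP (h : VP_stmt) : SUP_stmt := by
  intro ε A B hε hε1
  obtain ⟨B₁, N₁, h1⟩ := SUP_core h ε (A + 2) B hε
  obtain ⟨N₂, h2⟩ := SUP_ev ε hε 2 (20 + Real.log 128) (A + 2)
  refine ⟨B₁, max N₁ N₂, ?_⟩
  intro N hN q hq1 hq χ t ht1 ht2
  have c := h1 N (le_trans (le_max_left _ _) hN) q hq1 hq χ t ht1 ht2
  obtain ⟨e1, e2, e3, e4⟩ := h2 N (le_trans (le_max_right _ _) hN)
  have hN1 : (1 : ℝ) ≤ N := by exact_mod_cast (by omega : 1 ≤ N)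
  have hN0 : (0 : ℝ) < N := by linarith
  have hp4 : (0 : ℝ) < Real.log 128 := Real.log_pos (by norm_num)
  set L := Real.log (N : ℝ) with hLdef
  have hL20 : 20 ≤ L := by linarith
  have hL0 : 0 < L := by linarith
  set D := L ^ (A + 2) with hDdef
  have hD : 0 < D := by positivity
  have hDA : D = L ^ A * L ^ 2 := by rw [hDdef, pow_add]
  have hLA : 0 < L ^ A := by positivity
  have hNe : (N : ℝ) ^ (ε / 2) + 1 ≤ (N : ℝ) ^ ε := by
    have e : (N : ℝ) ^ ε = (N : ℝ) ^ (ε / 2) * (N : ℝ) ^ (ε / 2) := by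
      rw [← Real.rpow_add hN0]; congr 1; ring
    rw [e]; nlinarith
  have hsq : ∀ M : ℕ, (N : ℝ) ^ ε ≤ M → (N : ℝ) ^ (ε / 2) ≤ √(M : ℝ) := by
    intro M hM
    apply Real.le_sqrt_of_sq_le
    have e : ((N : ℝ) ^ (ε / 2)) ^ 2 = (N : ℝ) ^ ε := by
      rw [sq, ← Real.rpow_add hN0]; congr 1; ring
    rw [e]; exact hM
  have hgen : ∀ (M c : ℝ), 0 ≤ M → c ≤ 20 * L → c * M / D ≤ M / L ^ A := by
    intro M c hM hc
    rw [hDA, div_le_div_iff₀ (by positivity) hLA]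
    have h3 : c ≤ L ^ 2 := by nlinarith
    have h4 : c * (M * L ^ A) ≤ L ^ 2 * (M * L ^ A) :=
      mul_le_mul_of_nonneg_right h3 (by positivity)
    linarith
  refine ⟨?_, ?_, ?_⟩
  · intro M U hM hM'
    have hM1' : (N : ℝ) ^ (ε / 2) + 1 ≤ M := hNe.trans hM
    have hM1 : 1 ≤ M := by
      have : (1 : ℝ) ≤ M := by
        have : (0 : ℝ) ≤ (N : ℝ) ^ (ε / 2) := by positivity
        linarith
      exact_mod_cast this
    rw [SUP_main1 χ t M U hM1]
    have hM'' : (M : ℝ) ≤ 64 * (N : ℝ) ^ 3 := by exact_mod_cast hM'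
    have hc1 : ((2 * M - 1 : ℕ) : ℝ) ≤ 2 * M := by exact_mod_cast Nat.sub_le _ _
    have hc2 : ((M - 1 : ℕ) : ℝ) = M - 1 := by push_cast [hM1]; ring
    have hc3 : ((M - 1 : ℕ) : ℝ) ≤ ((max (M - 1) U : ℕ) : ℝ) := by
      exact_mod_cast le_max_left _ _
    have hd := SUP_diff (fun n => (vonMangoldt n : ℂ) * χ n * nit t n) ((N : ℝ) ^ (ε / 2))
      (128 * (N : ℝ) ^ 3) D hD (fun X hX1 hX2 => (c X hX1 (by exact_mod_cast hX2)).1)
      (max (M - 1) U) (2 * M - 1) (by linarith) (by linarith)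
    refine hd.trans ?_
    calc 2 * ((2 * M - 1 : ℕ) : ℝ) / D ≤ 4 * (M : ℝ) / D := by
          apply div_le_div_of_nonneg_right _ hD.le
          linarith
      _ ≤ M / L ^ A := hgen M 4 (by positivity) (by linarith)
  · intro K U hU hUK hK'
    have hU0 : (0 : ℝ) < U := lt_of_lt_of_le (by positivity) hU
    have hU1 : 1 ≤ U := by exact_mod_cast hU0
    have hK1 : 1 ≤ K := by omega
    have hK0 : (0 : ℝ) < K := by exact_mod_cast hK1
    have hK'' : (K : ℝ) ≤ 64 * (N : ℝ) ^ 3 := by exact_mod_cast hK'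
    rw [SUP_main2 χ t K U hK1]
    have hin : ∀ e ∈ Ioc 0 (2 * K), ‖χ (e : ZMod q) * nit t (e : ℝ) *
        ∑ d ∈ Ioc (max U ((K - 1) / e)) ((2 * K - 1) / e),
          ((moebius d : ℤ) : ℂ) * χ (d : ZMod q) * nit t (d : ℝ)‖ ≤ 4 * K / D * (1 / (e : ℝ)) := by
      intro e he
      have he0 : 0 < e := (mem_Ioc.1 he).1
      have he0' : (0 : ℝ) < e := by exact_mod_cast he0
      have hb : (((2 * K - 1) / e : ℕ) : ℝ) ≤ 2 * K / e := by
        refine Nat.cast_div_le.trans ?_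
        apply div_le_div_of_nonneg_right _ he0'.le
        exact_mod_cast Nat.sub_le _ _
      have hb2 : (((2 * K - 1) / e : ℕ) : ℝ) ≤ 2 * K := by
        have : (2 * K - 1) / e ≤ 2 * K := (Nat.div_le_self _ _).trans (Nat.sub_le _ _)
        exact_mod_cast this
      have hc3 : ((U : ℕ) : ℝ) ≤ ((max U ((K - 1) / e) : ℕ) : ℝ) := by
        exact_mod_cast le_max_left _ _
      have hd := SUP_diff (fun n => ((moebius n : ℤ) : ℂ) * χ n * nit t n) ((N : ℝ) ^ (ε / 2))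
        (128 * (N : ℝ) ^ 3) D hD (fun X hX1 hX2 => (c X hX1 (by exact_mod_cast hX2)).2)
        (max U ((K - 1) / e)) ((2 * K - 1) / e) (by linarith) (by linarith)
      rw [norm_mul, norm_mul, SUP_nit_norm, mul_one]
      calc ‖χ (e : ZMod q)‖ * ‖∑ d ∈ Ioc (max U ((K - 1) / e)) ((2 * K - 1) / e),
            ((moebius d : ℤ) : ℂ) * χ (d : ZMod q) * nit t (d : ℝ)‖
          ≤ 1 * (2 * (((2 * K - 1) / e : ℕ) : ℝ) / D) :=
            mul_le_mul (DirichletCharacter.norm_le_one χ _) hd (norm_nonneg _) (by norm_num)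
        _ = 2 * (((2 * K - 1) / e : ℕ) : ℝ) / D := one_mul _
        _ ≤ 2 * (2 * K / e) / D := by
            apply div_le_div_of_nonneg_right _ hD.le
            linarith
        _ = 4 * K / D * (1 / (e : ℝ)) := by
            field_simp
            ring
    refine (norm_sum_le _ _).trans ((sum_le_sum hin).trans ?_)
    rw [← mul_sum]
    have hh := SUP_harm (2 * K)
    have hlog : Real.log ((2 * K : ℕ) : ℝ) ≤ Real.log 128 + 3 * L := by
      have h3 : ((2 * K : ℕ) : ℝ) ≤ 128 * (N : ℝ) ^ 3 := by push_cast; linarith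
      have h4 := Real.log_le_log (by positivity) h3
      rw [Real.log_mul (by norm_num) (by positivity), Real.log_pow] at h4
      push_cast at h4 ⊢
      linarith
    calc 4 * (K : ℝ) / D * ∑ e ∈ Ioc 0 (2 * K), 1 / (e : ℝ)
        ≤ 4 * (K : ℝ) / D * (5 * L) := by
          apply mul_le_mul_of_nonneg_left _ (by positivity)
          linarith
      _ = (20 * L) * K / D := by ring
      _ ≤ K / L ^ A := hgen K (20 * L) hK0.le le_rfl
  · intro M M₁ M₂ hM hM' hMM₁ hM₂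
    have hM1' : (N : ℝ) ^ (ε / 2) + 1 ≤ M := hNe.trans hM
    have hM3 : 3 ≤ M := by
      have : (3 : ℝ) ≤ M := by linarith
      exact_mod_cast this
    have hM0 : (0 : ℝ) < M := by exact_mod_cast (by omega : 0 < M)
    have hM'' : (M : ℝ) ≤ 64 * (N : ℝ) ^ 3 := by exact_mod_cast hM'
    have hpart : ∀ u : ℕ, M₁ ≤ u + 1 → u + 1 ≤ M₂ →
        ‖∑ n ∈ (Ioc 0 u).filter (fun n => n.Prime), (Real.log n : ℂ) * χ n * nit t n‖ ≤
          4 * M / D := by
      intro u hu1 hu2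
      have hu3 : (M : ℝ) ≤ u + 1 := by exact_mod_cast hMM₁.trans hu1
      have hu4 : (u : ℝ) ≤ 2 * M := by
        have : u ≤ 2 * M := by omega
        exact_mod_cast this
      have hu0 : 1 ≤ u := by omega
      have hu0' : (1 : ℝ) ≤ u := by exact_mod_cast hu0
      have g := c u (by linarith) (by
        have : (u : ℝ) ≤ 128 * (N : ℝ) ^ 3 := by linarith
        exact_mod_cast this)
      have g2 := SUP_theta χ t u hu0 _ g.1
      refine g2.trans ?_
      have hlog : Real.log (u : ℝ) ≤ 4 * L := by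
        have h3 : (u : ℝ) ≤ 128 * (N : ℝ) ^ 3 := by linarith
        have h4 := Real.log_le_log (by positivity) h3
        rw [Real.log_mul (by norm_num) (by positivity), Real.log_pow] at h4
        push_cast at h4
        linarith
      have hlog0 : 0 ≤ Real.log (u : ℝ) := Real.log_nonneg hu0'
      have hs1 : √(u : ℝ) ≤ 2 * √(M : ℝ) := by
        rw [Real.sqrt_le_iff]
        refine ⟨by positivity, ?_⟩
        rw [mul_pow, Real.sq_sqrt hM0.le]
        linarith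
      have hs2 : 8 * L ^ (A + 5) ≤ √(M : ℝ) := by
        have := e4.trans (hsq M hM)
        exact this
      have hs3 : 2 * √(u : ℝ) * Real.log u ≤ 2 * M / D := by
        rw [le_div_iff₀ hD]
        have hs4 : √(M : ℝ) * √(M : ℝ) = M := Real.mul_self_sqrt hM0.le
        calc 2 * √(u : ℝ) * Real.log u * D ≤ 2 * (2 * √(M : ℝ)) * (4 * L) * D := by
              apply mul_le_mul_of_nonneg_right _ hD.le
              apply mul_le_mul _ hlog hlog0 (by positivity)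
              linarith
          _ = 2 * √(M : ℝ) * (8 * (L * D)) := by ring
          _ ≤ 2 * √(M : ℝ) * (8 * L ^ (A + 5)) := by
              apply mul_le_mul_of_nonneg_left _ (by positivity)
              apply mul_le_mul_of_nonneg_left _ (by norm_num)
              rw [hDdef]
              calc L * L ^ (A + 2) = L ^ (A + 3) := by ring
                _ ≤ L ^ (A + 5) := pow_le_pow_right₀ (by linarith) (by omega)
          _ ≤ 2 * √(M : ℝ) * √(M : ℝ) := mul_le_mul_of_nonneg_left hs2 (by positivity)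
          _ = 2 * M := by rw [mul_assoc, hs4]
      have hs5 : (u : ℝ) / D ≤ 2 * M / D := div_le_div_of_nonneg_right hu4 hD.le
      calc (u : ℝ) / D + 2 * √(u : ℝ) * Real.log u ≤ 2 * M / D + 2 * M / D := add_le_add hs5 hs3
        _ = 4 * M / D := by ring
    have g3 := SUP_main3 χ t M₁ M₂ (4 * M / D) (by omega) hpart (by positivity)
    refine g3.trans ?_
    calc 2 * (4 * (M : ℝ) / D) = 8 * M / D := by ring
      _ ≤ M / L ^ A := hgen M 8 hM0.le (by linarith)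

end Pool.Agent.CH
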